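import Mathlib

/-!
# Counting small values of a linear form at integers
-/

set_option autoImplicit false

namespace Pool.Agent.TH42.LD

open Finset

/-- the first small value -/
theorem first_small (ξ : ℝ) (n : ℕ) (hn : 1 ≤ n) :
    ∃ W : ℕ, 1 ≤ W ∧ W ≤ n ∧ (∃ l : ℤ, |(W : ℝ) * ξ - l| < 1 / n) ∧
      ∀ r : ℕ, 1 ≤ r → r < W → ∀ l : ℤ, 1 / (2 * (W : ℝ)) ≤ |(r : ℝ) * ξ - l| := by
  classical
  have hn0 : (0 : ℝ) < n := by exact_mod_cast hn
  have hex : ∃ r : ℕ, 1 ≤ r ∧ ∃ l : ℤ, |(r : ℝ) * ξ - l| < 1 / n := by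
    obtain ⟨j, k, hk0, hkn, hle⟩ := Real.exists_int_int_abs_mul_sub_le ξ (n := n) (by omega)
    refine ⟨k.toNat, by omega, j, ?_⟩
    have h1 : ((k.toNat : ℕ) : ℝ) = (k : ℝ) := by
      have : ((k.toNat : ℕ) : ℤ) = k := Int.toNat_of_nonneg hk0.le
      exact_mod_cast this
    rw [h1]
    refine lt_of_le_of_lt hle ?_
    apply one_div_lt_one_div_of_lt hn0
    linarith
  set W := Nat.find hex with hW
  obtain ⟨hW1, lW, hlW⟩ := Nat.find_spec hex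
  have hmin : ∀ r : ℕ, 1 ≤ r → r < W → ∀ l : ℤ, 1 / (n : ℝ) ≤ |(r : ℝ) * ξ - l| := by
    intro r hr1 hrW l
    by_contra h
    rw [not_le] at h
    exact Nat.find_min hex hrW ⟨hr1, l, h⟩
  have hWn : W ≤ n := by
    obtain ⟨j, k, hk0, hkn, hle⟩ := Real.exists_int_int_abs_mul_sub_le ξ (n := n) (by omega)
    have h1 : ((k.toNat : ℕ) : ℝ) = (k : ℝ) := by
      have : ((k.toNat : ℕ) : ℤ) = k := Int.toNat_of_nonneg hk0.le
      exact_mod_cast this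
    have h2 : W ≤ k.toNat := by
      apply Nat.find_min' hex
      refine ⟨by omega, j, ?_⟩
      rw [h1]
      refine lt_of_le_of_lt hle ?_
      apply one_div_lt_one_div_of_lt hn0
      linarith
    omega
  refine ⟨W, hW1, hWn, ⟨lW, hlW⟩, ?_⟩
  intro r hr1 hrW l
  have hW0 : (0 : ℝ) < W := by exact_mod_cast hW1
  have hr0 : (0 : ℝ) < r := by exact_mod_cast hr1
  have hrWR : (r : ℝ) ≤ W := by exact_mod_cast hrW.le
  have h1 := hmin r hr1 hrW l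
  have hD : (((r : ℤ) * lW - (W : ℤ) * l : ℤ) : ℝ) =
      W * ((r : ℝ) * ξ - l) - r * ((W : ℝ) * ξ - lW) := by
    push_cast
    ring
  by_cases h0 : (r : ℤ) * lW - (W : ℤ) * l = 0
  · exfalso
    rw [h0, Int.cast_zero] at hD
    have h2 : (W : ℝ) * ((r : ℝ) * ξ - l) = r * ((W : ℝ) * ξ - lW) := by linarith
    have h3 : (W : ℝ) * |(r : ℝ) * ξ - l| = r * |(W : ℝ) * ξ - lW| := by
      rw [← abs_of_pos hW0, ← abs_mul, abs_of_pos hW0, h2, abs_mul, abs_of_pos hr0]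
    have h4 : (r : ℝ) * |(W : ℝ) * ξ - lW| ≤ W * |(W : ℝ) * ξ - lW| :=
      mul_le_mul_of_nonneg_right hrWR (abs_nonneg _)
    have h5 : (W : ℝ) * |(r : ℝ) * ξ - l| ≤ W * |(W : ℝ) * ξ - lW| := by linarith
    have h6 := le_of_mul_le_mul_left h5 hW0
    linarith
  · have h2 : (1 : ℝ) ≤ |(((r : ℤ) * lW - (W : ℤ) * l : ℤ) : ℝ)| := by
      exact_mod_cast Int.one_le_abs h0
    rw [hD] at h2
    have h3 := abs_sub (W * ((r : ℝ) * ξ - l)) (r * ((W : ℝ) * ξ - lW))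
    rw [abs_mul, abs_mul, abs_of_pos hW0, abs_of_pos hr0] at h3
    have h4 : (r : ℝ) * |(W : ℝ) * ξ - lW| ≤ W * |(r : ℝ) * ξ - l| := by
      refine mul_le_mul hrWR ?_ (abs_nonneg _) hW0.le
      linarith
    rw [div_le_iff₀ (by positivity)]
    linarith

/-- the lattice point count -/
theorem lattice_count (ξ : ℝ) (n W : ℕ) (hW1 : 1 ≤ W) (hWn : W ≤ n)
    (hsep : ∀ r : ℕ, 1 ≤ r → r < W → ∀ l : ℤ, 1 / (2 * (W : ℝ)) ≤ |(r : ℝ) * ξ - l|)
    (δ : ℝ) (hδ : 0 ≤ δ) (S : Finset (ℕ × ℤ))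
    (hS : ∀ z ∈ S, z.1 ≤ n ∧ |(z.1 : ℝ) * ξ - z.2| ≤ δ) :
    (S.card : ℝ) ≤ 8 * n * δ + 4 * (n / W) := by
  classical
  have hW0 : (0 : ℝ) < W := by exact_mod_cast hW1
  have hWn' : (W : ℝ) ≤ n := by exact_mod_cast hWn
  set φ : ℕ × ℤ → ℕ × ℤ := fun z => (z.1 / W, ⌊2 * (W : ℝ) * ((z.1 : ℝ) * ξ - z.2)⌋) with hφ
  have hinj : Set.InjOn φ (S : Set (ℕ × ℤ)) := by
    have key : ∀ z z' : ℕ × ℤ, φ z = φ z' → z'.1 ≤ z.1 → z = z' := by
      intro z z' h hle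
      simp only [hφ, Prod.mk.injEq] at h
      obtain ⟨h1, h2⟩ := h
      have h3 := Int.abs_sub_lt_one_of_floor_eq_floor h2
      have h4 : 2 * (W : ℝ) * ((z.1 : ℝ) * ξ - z.2) - 2 * (W : ℝ) * ((z'.1 : ℝ) * ξ - z'.2) =
          2 * W * (((z.1 - z'.1 : ℕ) : ℝ) * ξ - ((z.2 - z'.2 : ℤ) : ℝ)) := by
        rw [Nat.cast_sub hle]
        push_cast
        ring
      rw [h4, abs_mul, abs_of_pos (by positivity : (0 : ℝ) < 2 * W)] at h3
      rcases Nat.eq_zero_or_pos (z.1 - z'.1) with h5 | h5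
      · rw [h5] at h3
        have h6 : z.2 - z'.2 = 0 := by
          by_contra h7
          have h8 : (1 : ℝ) ≤ |((z.2 - z'.2 : ℤ) : ℝ)| := by exact_mod_cast Int.one_le_abs h7
          rw [Nat.cast_zero, zero_mul, zero_sub, abs_neg] at h3
          have h9 : (1 : ℝ) ≤ W := by exact_mod_cast hW1
          nlinarith
        exact Prod.ext (by omega) (by omega)
      · exfalso
        have hlt : z.1 - z'.1 < W := by
          have h6 := Nat.div_add_mod z.1 W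
          have h7 := Nat.div_add_mod z'.1 W
          have h8 := Nat.mod_lt z.1 hW1
          rw [h1] at h6
          omega
        have h6 := hsep (z.1 - z'.1) h5 hlt (z.2 - z'.2)
        rw [div_le_iff₀ (by positivity)] at h6
        linarith
    intro z _ z' _ h
    rcases le_total z'.1 z.1 with hle | hle
    · exact key z z' h hle
    · exact (key z' z h.symm hle).symm
  have hmaps : ∀ z ∈ S, φ z ∈ range (n / W + 1) ×ˢ Icc ⌊-(2 * W * δ)⌋ ⌊2 * W * δ⌋ := by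
    intro z hz
    obtain ⟨h1, h2⟩ := hS z hz
    rw [abs_le] at h2
    rw [mem_product, mem_range, mem_Icc]
    simp only [hφ]
    refine ⟨Nat.lt_succ_of_le (Nat.div_le_div_right h1), Int.floor_le_floor ?_,
      Int.floor_le_floor ?_⟩
    · have := mul_le_mul_of_nonneg_left h2.1 (by positivity : (0 : ℝ) ≤ 2 * W)
      linarith
    · exact mul_le_mul_of_nonneg_left h2.2 (by positivity)
  have hcard := Finset.card_le_card_of_injOn φ hmaps hinj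
  rw [card_product, card_range, Int.card_Icc] at hcard
  have h1 : (((n / W + 1 : ℕ)) : ℝ) ≤ 2 * (n / W) := by
    have h2 : ((n / W : ℕ) : ℝ) ≤ (n : ℝ) / W := Nat.cast_div_le
    have h3 : (1 : ℝ) ≤ (n : ℝ) / W := by
      rw [le_div_iff₀ hW0]
      linarith
    push_cast
    linarith
  have h2 : (((⌊2 * W * δ⌋ + 1 - ⌊-(2 * W * δ)⌋).toNat : ℕ) : ℝ) ≤ 4 * W * δ + 2 := by
    have h3 : ⌊-(2 * W * δ)⌋ ≤ ⌊2 * W * δ⌋ := Int.floor_le_floor (by
      have : 0 ≤ 2 * W * δ := by positivity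
      linarith)
    have h4 : (((⌊2 * W * δ⌋ + 1 - ⌊-(2 * W * δ)⌋).toNat : ℕ) : ℝ) =
        (⌊2 * W * δ⌋ : ℝ) + 1 - ⌊-(2 * W * δ)⌋ := by
      have h5 : (((⌊2 * W * δ⌋ + 1 - ⌊-(2 * W * δ)⌋).toNat : ℕ) : ℤ) =
          ⌊2 * W * δ⌋ + 1 - ⌊-(2 * W * δ)⌋ := Int.toNat_of_nonneg (by omega)
      exact_mod_cast h5
    rw [h4]
    have h5 := Int.floor_le (2 * W * δ)
    have h6 := Int.lt_floor_add_one (-(2 * W * δ))
    linarith
  calc (S.card : ℝ) ≤ (((n / W + 1) * (⌊2 * W * δ⌋ + 1 - ⌊-(2 * W * δ)⌋).toNat : ℕ) : ℝ) := by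
        exact_mod_cast hcard
    _ = ((n / W + 1 : ℕ) : ℝ) * (((⌊2 * W * δ⌋ + 1 - ⌊-(2 * W * δ)⌋).toNat : ℕ) : ℝ) := by
        push_cast
        ring
    _ ≤ (2 * (n / W)) * (4 * W * δ + 2) := mul_le_mul h1 h2 (by positivity) (by positivity)
    _ = 8 * n * δ + 4 * (n / W) := by
        field_simp
        ring

/-- numbers of type one have good counts -/
theorem alg_count (ξ : ℝ) (τ c : ℝ) (hτ : 0 < τ) (hc : 0 < c)
    (hroth : ∀ q : ℕ, 1 ≤ q → ∀ p : ℤ, c ≤ (q : ℝ) ^ (1 + τ) * |q * ξ - p|) :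
    ∃ C : ℝ, 0 < C ∧ ∀ n : ℕ, 1 ≤ n → ∀ δ : ℝ, 0 ≤ δ → ∀ S : Finset (ℕ × ℤ),
      (∀ z ∈ S, z.1 ≤ n ∧ |(z.1 : ℝ) * ξ - z.2| ≤ δ) →
      (S.card : ℝ) ≤ 8 * n * δ + C * (n : ℝ) ^ τ := by
  set s : ℝ := 1 / (1 + τ) with hs
  have hs0 : 0 < s := by rw [hs]; positivity
  refine ⟨4 * (c ^ s)⁻¹, by positivity, ?_⟩
  intro n hn δ hδ S hS
  have hn1 : (1 : ℝ) ≤ n := by exact_mod_cast hn
  have hn0 : (0 : ℝ) < n := by linarith
  obtain ⟨W, hW1, hWn, ⟨l, hl⟩, hsep⟩ := first_small ξ n hn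
  have hW0 : (0 : ℝ) < W := by exact_mod_cast hW1
  refine (lattice_count ξ n W hW1 hWn hsep δ hδ S hS).trans ?_
  have h1 := hroth W hW1 l
  have h2 : c * n ≤ (W : ℝ) ^ (1 + τ) := by
    have h3 : (W : ℝ) ^ (1 + τ) * |(W : ℝ) * ξ - l| ≤ (W : ℝ) ^ (1 + τ) * (1 / n) :=
      mul_le_mul_of_nonneg_left hl.le (by positivity)
    have h4 := h1.trans h3
    rw [mul_one_div, le_div_iff₀ hn0] at h4
    exact h4
  have h3 : (c * n) ^ s ≤ W := by
    calc (c * n) ^ s ≤ ((W : ℝ) ^ (1 + τ)) ^ s := Real.rpow_le_rpow (by positivity) h2 hs0.le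
      _ = W := by
        rw [← Real.rpow_mul hW0.le, hs, mul_one_div, div_self (by positivity), Real.rpow_one]
  rw [Real.mul_rpow hc.le hn0.le] at h3
  have h4 : (n : ℝ) / W ≤ (c ^ s)⁻¹ * (n : ℝ) ^ τ := by
    have hcs : 0 < c ^ s := by positivity
    have hns : 0 < (n : ℝ) ^ s := by positivity
    have h5 : (n : ℝ) / W ≤ n / (c ^ s * (n : ℝ) ^ s) :=
      div_le_div_of_nonneg_left hn0.le (by positivity) h3
    have h6 : (n : ℝ) / (c ^ s * (n : ℝ) ^ s) = (c ^ s)⁻¹ * (n : ℝ) ^ (1 - s) := by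
      rw [Real.rpow_sub hn0, Real.rpow_one]
      field_simp
    have h7 : (n : ℝ) ^ (1 - s) ≤ (n : ℝ) ^ τ := by
      apply Real.rpow_le_rpow_of_exponent_le hn1
      rw [hs, sub_le_iff_le_add, ← sub_le_iff_le_add', le_div_iff₀ (by positivity)]
      nlinarith
    rw [h6] at h5
    exact h5.trans (mul_le_mul_of_nonneg_left h7 (by positivity))
  linarith

end Pool.Agent.TH42.LD
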