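import Pool.Agent.TH42.LD.A

/-!
# Exceptional division points at one scale
-/

set_option autoImplicit false

namespace Pool.Agent.TH42.LD

open Finset

theorem residue_count (g N1 q1 : ℕ) (hN1 : 1 ≤ N1) (hcop : Nat.Coprime q1 N1) (l : ℤ) :
    ((range (g * N1)).filter (fun b : ℕ => (N1 : ℤ) ∣ (q1 : ℤ) * b + l)).card ≤ g := by
  classical
  have h := Finset.card_le_card_of_injOn (s := (range (g * N1)).filter
    (fun b : ℕ => (N1 : ℤ) ∣ (q1 : ℤ) * b + l)) (t := range g) (fun b => b / N1) ?_ ?_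
  · rwa [card_range] at h
  · intro b hb
    rw [Finset.mem_coe, mem_filter, mem_range] at hb
    rw [Finset.mem_coe, mem_range]
    exact Nat.div_lt_of_lt_mul (by rw [mul_comm]; exact hb.1)
  · intro b hb b' hb' hbb
    rw [Finset.mem_coe, mem_filter, mem_range] at hb hb'
    simp only at hbb
    have h1 : (N1 : ℤ) ∣ (q1 : ℤ) * ((b : ℤ) - b') := by
      have h2 := dvd_sub hb.2 hb'.2
      have h3 : (q1 : ℤ) * b + l - ((q1 : ℤ) * b' + l) = (q1 : ℤ) * ((b : ℤ) - b') := by ring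
      rwa [h3] at h2
    have h2 : IsCoprime (N1 : ℤ) (q1 : ℤ) := (Nat.isCoprime_iff_coprime.mpr hcop).symm
    have h3 : (N1 : ℤ) ∣ (b : ℤ) - b' := h2.dvd_of_dvd_mul_left h1
    have h4 := Nat.div_add_mod b N1
    have h5 := Nat.div_add_mod b' N1
    have h6 := Nat.mod_lt b hN1
    have h7 := Nat.mod_lt b' hN1
    rw [← hbb] at h5
    obtain ⟨t, ht⟩ := h3
    have h8 : (b : ℤ) - b' = ((b % N1 : ℕ) : ℤ) - ((b' % N1 : ℕ) : ℤ) := by
      have h9 : (b : ℤ) = ((N1 * (b / N1) + b % N1 : ℕ) : ℤ) := by rw [h4]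
      have h10 : (b' : ℤ) = ((N1 * (b / N1) + b' % N1 : ℕ) : ℤ) := by rw [h5]
      rw [h9, h10]
      push_cast
      ring
    have h9 : t = 0 := by
      by_contra h0
      have h10 : |(b : ℤ) - b'| < N1 := by
        rw [h8, abs_lt]
        constructor <;> omega
      rw [ht, abs_mul, Nat.abs_cast] at h10
      have h11 : 1 ≤ |t| := Int.one_le_abs h0
      have h12 : (0 : ℤ) < N1 := by exact_mod_cast hN1
      nlinarith
    rw [h9, mul_zero] at ht
    omega

theorem scale (ξ τ c C : ℝ) (hτ : 0 < τ) (hc : 0 < c) (hC : 0 < C)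
    (hroth : ∀ q : ℕ, 1 ≤ q → ∀ p : ℤ, c ≤ (q : ℝ) ^ (1 + τ) * |q * ξ - p|)
    (hcount : ∀ n : ℕ, 1 ≤ n → ∀ δ : ℝ, 0 ≤ δ → ∀ S : Finset (ℕ × ℤ),
      (∀ z ∈ S, z.1 ≤ n ∧ |(z.1 : ℝ) * ξ - z.2| ≤ δ) →
      (S.card : ℝ) ≤ 8 * n * δ + C * (n : ℝ) ^ τ)
    (N Q : ℕ) (hN : 1 ≤ N) (hQ : 1 ≤ Q) (β : ℝ) (hβ : 0 ≤ β) (hβ1 : β ≤ 1 / (Q : ℝ) ^ 2)
    (Ex : Finset ℕ) (hEx : ∀ b ∈ Ex, b < N ∧ ∃ (p : ℤ) (q : ℕ), Q ≤ q ∧ q < 2 * Q ∧
      |(ξ + b) / N - (p : ℝ) / q| ≤ β) :
    (Ex.card : ℝ) ≤ 32 * (Q : ℝ) ^ 2 * β * (∑ g ∈ N.divisors, (g : ℝ)) +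
      N.divisors.card * (C * Real.sqrt (4 / c) * (2 * (Q : ℝ)) ^ (2 * τ) * Real.sqrt N) := by
  classical
  have hN0 : (0 : ℝ) < N := by exact_mod_cast hN
  have hQ0 : (0 : ℝ) < Q := by exact_mod_cast hQ
  have hQ1 : (1 : ℝ) ≤ Q := by exact_mod_cast hQ
  set δ : ℝ := 2 * Q * N * β with hδ
  have hδ0 : 0 ≤ δ := by rw [hδ]; positivity
  set B : ℤ := ⌈2 * Q * |ξ| + δ⌉ with hB
  set A : ℕ → Finset (ℕ × ℤ) := fun g =>
    ((Icc 1 (2 * Q / g)) ×ˢ (Icc (-B) B)).filter (fun z => |(z.1 : ℝ) * ξ - z.2| ≤ δ / g) with hA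
  have hsub : Ex ⊆ N.divisors.biUnion (fun g => ((A g).filter
      (fun z => Nat.Coprime z.1 (N / g))).biUnion (fun z =>
        (range (g * (N / g))).filter (fun b : ℕ => ((N / g : ℕ) : ℤ) ∣ (z.1 : ℤ) * b + z.2))) := by
    intro b hb
    obtain ⟨hbN, p, q, hq1, hq2, hle⟩ := hEx b hb
    have hq0 : 0 < q := by omega
    have hqR : (0 : ℝ) < q := by exact_mod_cast hq0
    set g : ℕ := Nat.gcd q N with hg
    have hg0 : 0 < g := Nat.gcd_pos_of_pos_left N hq0
    have hgR : (0 : ℝ) < g := by exact_mod_cast hg0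
    have hgR1 : (1 : ℝ) ≤ g := by exact_mod_cast hg0
    have hgq : g ∣ q := Nat.gcd_dvd_left q N
    have hgN : g ∣ N := Nat.gcd_dvd_right q N
    set q1 : ℕ := q / g with hq1def
    set N1 : ℕ := N / g with hN1def
    have hqe : g * q1 = q := Nat.mul_div_cancel' hgq
    have hNe : g * N1 = N := Nat.mul_div_cancel' hgN
    have hqe' : (g : ℝ) * q1 = q := by exact_mod_cast hqe
    have hNe' : (g : ℝ) * N1 = N := by exact_mod_cast hNe
    have hq1pos : 1 ≤ q1 := Nat.div_pos (Nat.le_of_dvd hq0 hgq) hg0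
    set l1 : ℤ := p * N1 - q1 * b with hl1
    have hval : (q : ℝ) * N * ((ξ + b) / N - (p : ℝ) / q) = g * ((q1 : ℝ) * ξ - l1) := by
      rw [hl1]
      push_cast
      have e1 : (q : ℝ) * N * ((ξ + b) / N - (p : ℝ) / q) = q * ξ + q * b - p * N := by
        field_simp
      rw [e1, ← hqe', ← hNe']
      ring
    have hsm : |(q1 : ℝ) * ξ - l1| ≤ δ / g := by
      rw [le_div_iff₀ hgR]
      have h1 : |(q1 : ℝ) * ξ - l1| * g = (q : ℝ) * N * |(ξ + b) / N - (p : ℝ) / q| := by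
        have h0 : |(q1 : ℝ) * ξ - l1| * g = |(g : ℝ) * ((q1 : ℝ) * ξ - l1)| := by
          rw [abs_mul, abs_of_pos hgR, mul_comm]
        rw [h0, ← hval, abs_mul, abs_of_pos (mul_pos hqR hN0)]
      rw [h1, hδ]
      have h2 : (q : ℝ) ≤ 2 * Q := by exact_mod_cast hq2.le
      exact mul_le_mul (mul_le_mul_of_nonneg_right h2 hN0.le) hle (abs_nonneg _) (by positivity)
    rw [mem_biUnion]
    refine ⟨g, Nat.mem_divisors.mpr ⟨hgN, by omega⟩, ?_⟩
    rw [mem_biUnion]
    refine ⟨(q1, l1), ?_, ?_⟩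
    · rw [mem_filter]
      constructor
      · simp only [hA]
        rw [mem_filter, mem_product, mem_Icc, mem_Icc]
        refine ⟨⟨⟨hq1pos, Nat.div_le_div_right hq2.le⟩, ?_⟩, hsm⟩
        simp only
        have h1 : |(l1 : ℝ)| ≤ 2 * Q * |ξ| + δ := by
          have h2 : (l1 : ℝ) = q1 * ξ - (q1 * ξ - l1) := by ring
          rw [h2]
          refine (abs_sub _ _).trans ?_
          rw [abs_mul, Nat.abs_cast]
          have h3 : (q1 : ℝ) ≤ 2 * Q := by
            have : q1 ≤ q := Nat.div_le_self q g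
            have : q1 ≤ 2 * Q := by omega
            exact_mod_cast this
          have h4 : δ / g ≤ δ := div_le_self hδ0 hgR1
          have h5 := mul_le_mul_of_nonneg_right h3 (abs_nonneg ξ)
          linarith
        have h2 : |l1| ≤ B := by
          have h3 : (|l1| : ℝ) ≤ (B : ℝ) := h1.trans (Int.le_ceil _)
          exact_mod_cast h3
        exact abs_le.mp h2
      · exact Nat.coprime_div_gcd_div_gcd hg0
    · rw [mem_filter, mem_range]
      refine ⟨by rw [hNe]; exact hbN, p, ?_⟩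
      simp only [hl1]
      ring
  have hcard1 : (Ex.card : ℝ) ≤ ∑ g ∈ N.divisors, (g : ℝ) * ((A g).card : ℝ) := by
    have h1 : Ex.card ≤ ∑ g ∈ N.divisors, (A g).card * g := by
      refine (Finset.card_le_card hsub).trans (Finset.card_biUnion_le.trans ?_)
      refine Finset.sum_le_sum fun g hg => ?_
      have hgN := (Nat.mem_divisors.mp hg).1
      have hg0 : 0 < g := Nat.pos_of_mem_divisors hg
      have hN1 : 1 ≤ N / g := Nat.div_pos (Nat.le_of_dvd (by omega) hgN) hg0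
      refine (Finset.card_biUnion_le_card_mul _ _ g fun z hz => ?_).trans
        (Nat.mul_le_mul_right g (Finset.card_filter_le _ _))
      rw [mem_filter] at hz
      exact residue_count g (N / g) z.1 hN1 hz.2 z.2
    have h2 : (Ex.card : ℝ) ≤ ((∑ g ∈ N.divisors, (A g).card * g : ℕ) : ℝ) := by exact_mod_cast h1
    refine h2.trans (le_of_eq ?_)
    push_cast
    exact Finset.sum_congr rfl fun g _ => mul_comm _ _
  have hper : ∀ g ∈ N.divisors, (g : ℝ) * ((A g).card : ℝ) ≤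
      32 * (Q : ℝ) ^ 2 * β * ((N / g : ℕ) : ℝ) +
        C * Real.sqrt (4 / c) * (2 * (Q : ℝ)) ^ (2 * τ) * Real.sqrt N := by
    intro g hg
    have hgN := (Nat.mem_divisors.mp hg).1
    have hg0 : 0 < g := Nat.pos_of_mem_divisors hg
    have hgR : (0 : ℝ) < g := by exact_mod_cast hg0
    have hgR1 : (1 : ℝ) ≤ g := by exact_mod_cast hg0
    have hNg : ((N / g : ℕ) : ℝ) = (N : ℝ) / g := Nat.cast_div hgN hgR.ne'
    rcases (A g).eq_empty_or_nonempty with hemp | ⟨z, hz⟩
    · rw [hemp, Finset.card_empty, Nat.cast_zero, mul_zero]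
      positivity
    · have hz' := hz
      simp only [hA] at hz'
      rw [mem_filter, mem_product, mem_Icc] at hz'
      obtain ⟨⟨⟨hz1, hz2⟩, _⟩, hz3⟩ := hz'
      have hn1 : 1 ≤ 2 * Q / g := hz1.trans hz2
      have h1 := hcount (2 * Q / g) hn1 (δ / g) (by positivity) (A g) (by
        intro y hy
        simp only [hA] at hy
        rw [mem_filter, mem_product, mem_Icc] at hy
        exact ⟨hy.1.1.2, hy.2⟩)
      have hnR : ((2 * Q / g : ℕ) : ℝ) ≤ 2 * Q / g := by
        have := Nat.cast_div_le (α := ℝ) (m := 2 * Q) (n := g)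
        push_cast at this
        exact this
      have hnR2 : (2 * (Q : ℝ)) / g ≤ 2 * Q := div_le_self (by positivity) hgR1
      have h2Q1 : 1 ≤ (2 * (Q : ℝ)) ^ τ := Real.one_le_rpow (by linarith) hτ.le
      have h2 : ((2 * Q / g : ℕ) : ℝ) ^ τ ≤ (2 * (Q : ℝ)) ^ τ :=
        Real.rpow_le_rpow (by positivity) (hnR.trans hnR2) hτ.le
      have h3 : ((A g).card : ℝ) ≤ 8 * (2 * Q / g) * (δ / g) + C * (2 * (Q : ℝ)) ^ τ := by
        refine h1.trans (add_le_add ?_ (mul_le_mul_of_nonneg_left h2 hC.le))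
        exact mul_le_mul_of_nonneg_right (mul_le_mul_of_nonneg_left hnR (by norm_num))
          (by positivity)
      have h4 : (g : ℝ) ≤ Real.sqrt (4 / c) * (2 * (Q : ℝ)) ^ τ * Real.sqrt N := by
        have h5 := hroth z.1 hz1 z.2
        have h6 : (z.1 : ℝ) ≤ 2 * Q / g := by
          have : (z.1 : ℝ) ≤ ((2 * Q / g : ℕ) : ℝ) := by exact_mod_cast hz2
          exact this.trans hnR
        have h7 : (z.1 : ℝ) ^ (1 + τ) ≤ (2 * Q / g) ^ (1 + τ) :=
          Real.rpow_le_rpow (Nat.cast_nonneg _) h6 (by linarith)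
        have h8 : c ≤ (2 * Q / g) ^ (1 + τ) * (δ / g) :=
          h5.trans (mul_le_mul h7 hz3 (abs_nonneg _) (by positivity))
        have h9 : δ ≤ 2 * N / Q := by
          rw [hδ, le_div_iff₀ hQ0]
          have h10 : β * (Q : ℝ) ^ 2 ≤ 1 := by
            rw [le_div_iff₀ (by positivity)] at hβ1
            exact hβ1
          calc 2 * (Q : ℝ) * N * β * Q = 2 * N * (β * (Q : ℝ) ^ 2) := by ring
            _ ≤ 2 * N * 1 := mul_le_mul_of_nonneg_left h10 (by positivity)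
            _ = 2 * N := by ring
        have h10 : (2 * Q / g : ℝ) ^ (1 + τ) = (2 * Q) * (2 * (Q : ℝ)) ^ τ / (g * (g : ℝ) ^ τ) := by
          rw [Real.div_rpow (by positivity) hgR.le, Real.rpow_add (by positivity), Real.rpow_one,
            Real.rpow_add hgR, Real.rpow_one]
        have hgτ : 1 ≤ (g : ℝ) ^ τ := Real.one_le_rpow hgR1 hτ.le
        have h11 : c ≤ (2 * Q) * (2 * (Q : ℝ)) ^ τ / g * ((2 * N / Q) / g) := by
          refine h8.trans ?_
          rw [h10]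
          refine mul_le_mul ?_ (div_le_div_of_nonneg_right h9 hgR.le) (by positivity)
            (by positivity)
          apply div_le_div_of_nonneg_left (by positivity) hgR
          exact le_mul_of_one_le_right hgR.le hgτ
        have h12 : (2 * Q) * (2 * (Q : ℝ)) ^ τ / g * ((2 * N / Q) / g) =
            4 * (2 * (Q : ℝ)) ^ τ * N / (g : ℝ) ^ 2 := by
          field_simp
          ring
        rw [h12, le_div_iff₀ (by positivity)] at h11
        have h13 : (g : ℝ) ^ 2 ≤ 4 / c * (2 * (Q : ℝ)) ^ τ * N := by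
          rw [div_mul_eq_mul_div, div_mul_eq_mul_div, le_div_iff₀ hc]
          linarith
        have h14 : (g : ℝ) ≤ Real.sqrt (4 / c * (2 * (Q : ℝ)) ^ τ * N) :=
          Real.le_sqrt_of_sq_le h13
        rw [Real.sqrt_mul (by positivity), Real.sqrt_mul (by positivity)] at h14
        refine h14.trans ?_
        refine mul_le_mul_of_nonneg_right ?_ (Real.sqrt_nonneg _)
        refine mul_le_mul_of_nonneg_left ?_ (Real.sqrt_nonneg _)
        rw [Real.sqrt_le_left (by positivity)]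
        nlinarith
      calc (g : ℝ) * ((A g).card : ℝ)
          ≤ g * (8 * (2 * Q / g) * (δ / g) + C * (2 * (Q : ℝ)) ^ τ) :=
            mul_le_mul_of_nonneg_left h3 hgR.le
        _ = 32 * (Q : ℝ) ^ 2 * β * ((N : ℝ) / g) + g * (C * (2 * (Q : ℝ)) ^ τ) := by
            rw [hδ]
            field_simp
            ring
        _ ≤ 32 * (Q : ℝ) ^ 2 * β * ((N : ℝ) / g) +
            (Real.sqrt (4 / c) * (2 * (Q : ℝ)) ^ τ * Real.sqrt N) * (C * (2 * (Q : ℝ)) ^ τ) := by
            refine add_le_add le_rfl (mul_le_mul_of_nonneg_right h4 (by positivity))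
        _ = _ := by
            rw [hNg]
            have h5 : (2 * (Q : ℝ)) ^ (2 * τ) = (2 * (Q : ℝ)) ^ τ * (2 * (Q : ℝ)) ^ τ := by
              rw [← Real.rpow_add (by positivity)]
              congr 1
              ring
            rw [h5]
            ring
  refine hcard1.trans ((Finset.sum_le_sum hper).trans ?_)
  rw [Finset.sum_add_distrib, Finset.sum_const, nsmul_eq_mul, ← Finset.mul_sum]
  have h1 : ∑ g ∈ N.divisors, ((N / g : ℕ) : ℝ) = ∑ g ∈ N.divisors, (g : ℝ) :=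
    Nat.sum_div_divisors N (fun g => (g : ℝ))
  rw [h1]

end Pool.Agent.TH42.LD
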