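import Pool.Agent.TH42.LD.B
import Pool.Agent.TH42.LA.E

/-!
# Exceptional division points at all scales
-/

set_option autoImplicit false

namespace Pool.Agent.TH42.LD

open Finset Filter

theorem irr_pt (ξ : ℝ) (hirr : Irrational ξ) (N b : ℕ) (hN : 1 ≤ N) :
    Irrational ((ξ + b) / N) := (hirr.add_natCast b).div_natCast (by omega)

/-- for one `N` a small constant leaves no exceptional point -/
theorem one_N (ξ : ℝ) (hirr : Irrational ξ) (κ ε : ℝ) (hε : 0 < ε) (N : ℕ) (hN : 1 ≤ N) :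
    ∃ c : ℝ, 0 < c ∧ ∀ b : ℕ, b < N → ∀ (p : ℤ) (q : ℕ), 2 ≤ q → (q : ℝ) ≤ (N : ℝ) ^ κ →
        c / ((q : ℝ) ^ 2 * Real.log q ^ (1 + ε)) < |(ξ + b) / N - (p : ℝ) / q| := by
  classical
  set M : ℕ := ⌊(N : ℝ) ^ κ⌋₊ with hM
  set g : ℕ × ℕ → ℝ := fun z => |(z.2 : ℝ) * ((ξ + z.1) / N) -
    round ((z.2 : ℝ) * ((ξ + z.1) / N))| / z.2 with hg
  set F : Finset ℝ := insert 1 (((range N ×ˢ Icc 2 M).image g).filter (fun x => 0 < x)) with hF
  have hFne : F.Nonempty := Finset.insert_nonempty _ _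
  set c0 : ℝ := F.min' hFne with hc0
  have hc0pos : 0 < c0 := by
    have h1 := F.min'_mem hFne
    rw [← hc0, hF, mem_insert, mem_filter] at h1
    rcases h1 with h1 | h1
    · rw [h1]
      exact one_pos
    · exact h1.2
  have hlog2 : 0 < Real.log 2 := Real.log_pos (by norm_num)
  refine ⟨c0 * Real.log 2 ^ (1 + ε), by positivity, ?_⟩
  intro b hb p q hq2 hqκ
  have hq0 : (0 : ℝ) < q := by
    have : 0 < q := by omega
    exact_mod_cast this
  have hq2R : (2 : ℝ) ≤ q := by exact_mod_cast hq2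
  have hqM : q ∈ Icc 2 M := by
    rw [mem_Icc]
    exact ⟨hq2, Nat.le_floor hqκ⟩
  have hgpos : 0 < g (b, q) := by
    simp only [hg]
    apply div_pos _ hq0
    rw [abs_pos]
    intro h0
    have h1 := (irr_pt ξ hirr N b hN).natCast_mul (m := q) (by omega)
    exact h1.ne_int _ (by linarith)
  have h1 : c0 ≤ g (b, q) := by
    apply F.min'_le
    rw [hF, mem_insert, mem_filter, mem_image]
    right
    exact ⟨⟨(b, q), mem_product.mpr ⟨mem_range.mpr hb, hqM⟩, rfl⟩, hgpos⟩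
  have h2 : g (b, q) ≤ |(ξ + b) / N - (p : ℝ) / q| := by
    simp only [hg]
    rw [div_le_iff₀ hq0]
    have h3 : |(ξ + b) / N - (p : ℝ) / q| * q = |(q : ℝ) * ((ξ + b) / N) - p| := by
      have h4 : (q : ℝ) * ((ξ + b) / N) - p = ((ξ + b) / N - (p : ℝ) / q) * q := by
        rw [sub_mul, div_mul_cancel₀ (p : ℝ) hq0.ne']
        ring
      rw [h4, abs_mul, abs_of_pos hq0]
    rw [h3]
    exact round_le _ _
  have h3 : c0 * Real.log 2 ^ (1 + ε) / ((q : ℝ) ^ 2 * Real.log q ^ (1 + ε)) < c0 := by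
    have h4 : Real.log 2 ≤ Real.log q := Real.log_le_log (by norm_num) hq2R
    have h5 : Real.log 2 ^ (1 + ε) ≤ Real.log q ^ (1 + ε) :=
      Real.rpow_le_rpow hlog2.le h4 (by linarith)
    have h6 : 0 < Real.log 2 ^ (1 + ε) := by positivity
    have h7 : 0 < Real.log q ^ (1 + ε) := lt_of_lt_of_le h6 h5
    rw [div_lt_iff₀ (by positivity)]
    apply mul_lt_mul_of_pos_left _ hc0pos
    have hq4 : (1 : ℝ) < (q : ℝ) ^ 2 := by nlinarith
    calc Real.log 2 ^ (1 + ε) ≤ Real.log q ^ (1 + ε) := h5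
      _ = 1 * Real.log q ^ (1 + ε) := (one_mul _).symm
      _ < (q : ℝ) ^ 2 * Real.log q ^ (1 + ε) := mul_lt_mul_of_pos_right hq4 h7
  linarith

/-- for finitely many `N` a small constant leaves no exceptional point -/
theorem few_N (ξ : ℝ) (hirr : Irrational ξ) (κ ε : ℝ) (hε : 0 < ε) (N0 : ℕ) :
    ∃ c : ℝ, 0 < c ∧ ∀ N : ℕ, 1 ≤ N → N < N0 → ∀ b : ℕ, b < N → ∀ (p : ℤ) (q : ℕ), 2 ≤ q →
      (q : ℝ) ≤ (N : ℝ) ^ κ →
        c / ((q : ℝ) ^ 2 * Real.log q ^ (1 + ε)) < |(ξ + b) / N - (p : ℝ) / q| := by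
  induction N0 with
  | zero => exact ⟨1, one_pos, fun N _ hN => absurd hN (Nat.not_lt_zero N)⟩
  | succ N0 ih =>
    obtain ⟨c1, hc1, h1⟩ := ih
    rcases Nat.eq_zero_or_pos N0 with h0 | h0
    · refine ⟨c1, hc1, fun N hN1 hN => ?_⟩
      omega
    obtain ⟨c2, hc2, h2⟩ := one_N ξ hirr κ ε hε N0 h0
    refine ⟨min c1 c2, lt_min hc1 hc2, fun N hN1 hN b hb p q hq hqκ => ?_⟩
    have hlog : 0 < Real.log q := Real.log_pos (by
      have : (2 : ℝ) ≤ q := by exact_mod_cast hq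
      linarith)
    have hpos : 0 ≤ (q : ℝ) ^ 2 * Real.log q ^ (1 + ε) := by positivity
    rcases Nat.lt_succ_iff_lt_or_eq.mp hN with h | h
    · exact lt_of_le_of_lt (div_le_div_of_nonneg_right (min_le_left _ _) hpos)
        (h1 N hN1 h b hb p q hq hqκ)
    · rw [h] at hb hqκ ⊢
      exact lt_of_le_of_lt (div_le_div_of_nonneg_right (min_le_right _ _) hpos)
        (h2 b hb p q hq hqκ)

theorem tail_summable (ε : ℝ) (hε : 0 < ε) :
    Summable (fun n : ℕ => 1 / ((n : ℝ) * Real.log 2) ^ (1 + ε)) := by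
  have hlog2 : 0 < Real.log 2 := Real.log_pos (by norm_num)
  have h1 : Summable (fun n : ℕ => (Real.log 2 ^ (1 + ε))⁻¹ * ((n : ℝ) ^ (1 + ε))⁻¹) :=
    (Real.summable_nat_rpow_inv.mpr (by linarith)).mul_left _
  refine h1.congr fun n => ?_
  rw [Real.mul_rpow (Nat.cast_nonneg n) hlog2.le, one_div, mul_inv, mul_comm]

open Classical in
/-- the count at all scales, for large `N` -/
theorem all_scales (ξ : ℝ)
    (hroth : ∀ τ : ℝ, 0 < τ → ∃ c : ℝ, 0 < c ∧ ∀ q : ℕ, 1 ≤ q → ∀ p : ℤ,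
      c ≤ (q : ℝ) ^ (1 + τ) * |q * ξ - p|)
    (κ ε η c : ℝ) (hκ : 1 ≤ κ) (hε : 0 < ε) (hη : 0 < η) (hc : 0 < c)
    (hc1 : c ≤ Real.log 2 ^ (1 + ε))
    (hc2 : 32 * c * ∑' n : ℕ, 1 / ((n : ℝ) * Real.log 2) ^ (1 + ε) ≤ η / 2) :
    ∀ᶠ N : ℕ in atTop, (((range N).filter (fun b : ℕ => ∃ (p : ℤ) (q : ℕ), 2 ≤ q ∧
      (q : ℝ) ≤ (N : ℝ) ^ κ ∧ |(ξ + b) / N - (p : ℝ) / q| ≤
        c / ((q : ℝ) ^ 2 * Real.log q ^ (1 + ε)))).card : ℝ) ≤
      η * ∑ g ∈ N.divisors, (g : ℝ) := by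
  have hκ0 : 0 < κ := by linarith
  set τ : ℝ := 1 / (32 * κ) with hτdef
  have hτ : 0 < τ := by rw [hτdef]; positivity
  obtain ⟨c0, hc0, hr⟩ := hroth τ hτ
  obtain ⟨C, hC, hcount⟩ := alg_count ξ τ c0 hτ hc0 hr
  obtain ⟨Cd, hCd0, hCd⟩ := Pool.Agent.TH42.LA.divisor_bound (1 / 16) (by norm_num)
  have hlog2 : 0 < Real.log 2 := Real.log_pos (by norm_num)
  set K : ℝ := C * Real.sqrt (4 / c0) with hK
  have hK0 : 0 ≤ K := by rw [hK]; positivity
  set K' : ℝ := 32 * κ * (Cd * (K * 2)) with hK'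
  filter_upwards [Pool.Agent.TH42.LA.const_le_rpow (5 / 16) (K' / (η / 2)) (by norm_num),
    eventually_ge_atTop 2] with N hN1 hN2
  have hN0 : (0 : ℝ) < N := by
    have : 0 < N := by omega
    exact_mod_cast this
  have hNR1 : (1 : ℝ) ≤ N := by
    have : 1 ≤ N := by omega
    exact_mod_cast this
  set P : ℝ := (N : ℝ) ^ (1 / 16 : ℝ) with hP
  have hP1 : 1 ≤ P := Real.one_le_rpow hNR1 (by norm_num)
  set J : ℕ := Nat.log 2 ⌊(N : ℝ) ^ κ⌋₊ with hJ
  have hfl : ⌊(N : ℝ) ^ κ⌋₊ ≠ 0 := by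
    have h1 : (1 : ℝ) ≤ (N : ℝ) ^ κ := Real.one_le_rpow hNR1 hκ0.le
    have h2 : 1 ≤ ⌊(N : ℝ) ^ κ⌋₊ := Nat.le_floor (by simpa using h1)
    omega
  have h2J : (2 : ℝ) ^ J ≤ (N : ℝ) ^ κ := by
    have h1 : 2 ^ J ≤ ⌊(N : ℝ) ^ κ⌋₊ := Nat.pow_log_le_self 2 hfl
    have h2 : ((2 ^ J : ℕ) : ℝ) ≤ (⌊(N : ℝ) ^ κ⌋₊ : ℝ) := by exact_mod_cast h1
    push_cast at h2
    exact h2.trans (Nat.floor_le (by positivity))
  have hJle : (J : ℝ) ≤ 32 * κ * P := by
    have h1 : (J : ℝ) * Real.log 2 ≤ κ * Real.log N := by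
      rw [← Real.log_pow, ← Real.log_rpow hN0]
      exact Real.log_le_log (by positivity) h2J
    have h2 : Real.log N ≤ P / (1 / 16) := Real.log_le_rpow_div hN0.le (by norm_num)
    have h3 := Real.log_two_gt_d9
    have h4 : (0 : ℝ) ≤ J := Nat.cast_nonneg J
    have h5 : κ * Real.log N ≤ κ * (P / (1 / 16)) := mul_le_mul_of_nonneg_left h2 hκ0.le
    nlinarith
  set Ex : ℕ → Finset ℕ := fun j => (range N).filter (fun b : ℕ => ∃ (p : ℤ) (q : ℕ),
    2 ^ j ≤ q ∧ q < 2 * 2 ^ j ∧ |(ξ + b) / N - (p : ℝ) / q| ≤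
      c / (((2 ^ j : ℕ) : ℝ) ^ 2 * ((j : ℝ) * Real.log 2) ^ (1 + ε))) with hEx
  have hsub : (range N).filter (fun b : ℕ => ∃ (p : ℤ) (q : ℕ), 2 ≤ q ∧
      (q : ℝ) ≤ (N : ℝ) ^ κ ∧ |(ξ + b) / N - (p : ℝ) / q| ≤
        c / ((q : ℝ) ^ 2 * Real.log q ^ (1 + ε))) ⊆ (Icc 1 J).biUnion Ex := by
    intro b hb
    rw [mem_filter] at hb
    obtain ⟨hbN, p, q, hq2, hqκ, hle⟩ := hb
    rw [mem_biUnion]
    have hq0 : q ≠ 0 := by omega
    refine ⟨Nat.log 2 q, ?_, ?_⟩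
    · rw [mem_Icc]
      refine ⟨Nat.log_pos (by norm_num) hq2, Nat.log_mono_right (Nat.le_floor hqκ)⟩
    · simp only [hEx]
      rw [mem_filter]
      refine ⟨hbN, p, q, Nat.pow_log_le_self 2 hq0, ?_, hle.trans ?_⟩
      · have := Nat.lt_pow_succ_log_self (b := 2) (by norm_num) q
        rw [pow_succ] at this
        omega
      · have h1 : ((2 ^ (Nat.log 2 q) : ℕ) : ℝ) ≤ q := by
          exact_mod_cast Nat.pow_log_le_self 2 hq0
        have h2 : ((Nat.log 2 q : ℕ) : ℝ) * Real.log 2 ≤ Real.log q := by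
          rw [← Real.log_pow]
          apply Real.log_le_log (by positivity)
          push_cast at h1
          exact h1
        have h3 : 1 ≤ Nat.log 2 q := Nat.log_pos (by norm_num) hq2
        have h4 : (0 : ℝ) < (Nat.log 2 q : ℕ) := by exact_mod_cast h3
        apply div_le_div_of_nonneg_left hc.le (by positivity)
        refine mul_le_mul (pow_le_pow_left₀ (by positivity) h1 2) ?_ (by positivity)
          (by positivity)
        exact Real.rpow_le_rpow (by positivity) h2 (by linarith)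
  have hEj : ∀ j ∈ Icc 1 J, ((Ex j).card : ℝ) ≤
      32 * c * (1 / ((j : ℝ) * Real.log 2) ^ (1 + ε)) * (∑ g ∈ N.divisors, (g : ℝ)) +
        Cd * P * (K * (2 * P) * Real.sqrt N) := by
    intro j hj
    rw [mem_Icc] at hj
    have hj0 : (0 : ℝ) < j := by exact_mod_cast hj.1
    have hj1 : (1 : ℝ) ≤ j := by exact_mod_cast hj.1
    set L : ℝ := ((j : ℝ) * Real.log 2) ^ (1 + ε) with hL
    have hL0 : 0 < L := by rw [hL]; positivity
    have hLc : c ≤ L := by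
      refine hc1.trans (Real.rpow_le_rpow hlog2.le ?_ (by linarith))
      nlinarith
    have hQ0 : (0 : ℝ) < ((2 ^ j : ℕ) : ℝ) := by positivity
    set β : ℝ := c / (((2 ^ j : ℕ) : ℝ) ^ 2 * L) with hβ
    have hβ0 : 0 ≤ β := by rw [hβ]; positivity
    have hβ1 : β ≤ 1 / ((2 ^ j : ℕ) : ℝ) ^ 2 := by
      rw [hβ, div_le_div_iff₀ (by positivity) (by positivity)]
      have : 0 ≤ ((2 ^ j : ℕ) : ℝ) ^ 2 := by positivity
      nlinarith
    have h1 := scale ξ τ c0 C hτ hc0 hC hr hcount N (2 ^ j) (by omega) Nat.one_le_two_pow β hβ0 hβ1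
      (Ex j) (by
        intro b hb
        simp only [hEx] at hb
        rw [mem_filter, mem_range] at hb
        exact hb)
    refine h1.trans (add_le_add (le_of_eq ?_) ?_)
    · rw [hβ]
      field_simp
    · have h2 : (N.divisors.card : ℝ) ≤ Cd * P := hCd N (by omega)
      have h3 : (2 * ((2 ^ j : ℕ) : ℝ)) ^ (2 * τ) ≤ 2 * P := by
        have h4 : 2 * ((2 ^ j : ℕ) : ℝ) ≤ 2 * (N : ℝ) ^ κ := by
          have h5 : ((2 ^ j : ℕ) : ℝ) ≤ (2 : ℝ) ^ J := by
            push_cast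
            exact pow_le_pow_right₀ (by norm_num) hj.2
          linarith
        calc (2 * ((2 ^ j : ℕ) : ℝ)) ^ (2 * τ) ≤ (2 * (N : ℝ) ^ κ) ^ (2 * τ) :=
              Real.rpow_le_rpow (by positivity) h4 (by positivity)
          _ = 2 ^ (2 * τ) * P := by
              rw [Real.mul_rpow (by norm_num) (by positivity), ← Real.rpow_mul hN0.le, hP]
              congr 2
              rw [hτdef]
              field_simp
              norm_num
          _ ≤ 2 * P := by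
              refine mul_le_mul_of_nonneg_right ?_ (by positivity)
              calc (2 : ℝ) ^ (2 * τ) ≤ (2 : ℝ) ^ (1 : ℝ) := by
                    apply Real.rpow_le_rpow_of_exponent_le (by norm_num)
                    rw [hτdef, mul_one_div, div_le_one (by positivity)]
                    linarith
                _ = 2 := Real.rpow_one 2
      have h4 : C * Real.sqrt (4 / c0) * (2 * ((2 ^ j : ℕ) : ℝ)) ^ (2 * τ) * Real.sqrt N ≤
          K * (2 * P) * Real.sqrt N := by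
        rw [← hK]
        exact mul_le_mul_of_nonneg_right (mul_le_mul_of_nonneg_left h3 hK0) (Real.sqrt_nonneg _)
      exact mul_le_mul h2 h4 (by positivity) (by positivity)
  set σ : ℝ := ∑ g ∈ N.divisors, (g : ℝ) with hσ
  have hσN : (N : ℝ) ≤ σ := by
    rw [hσ]
    exact Finset.single_le_sum (f := fun g : ℕ => (g : ℝ)) (fun g _ => Nat.cast_nonneg g)
      (Nat.mem_divisors_self N (by omega))
  have hσ0 : 0 ≤ σ := hN0.le.trans hσN
  have hcard : ((((range N).filter (fun b : ℕ => ∃ (p : ℤ) (q : ℕ), 2 ≤ q ∧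
      (q : ℝ) ≤ (N : ℝ) ^ κ ∧ |(ξ + b) / N - (p : ℝ) / q| ≤
        c / ((q : ℝ) ^ 2 * Real.log q ^ (1 + ε)))).card : ℕ) : ℝ) ≤
      ∑ j ∈ Icc 1 J, ((Ex j).card : ℝ) := by
    exact_mod_cast (Finset.card_le_card hsub).trans Finset.card_biUnion_le
  refine hcard.trans ((Finset.sum_le_sum hEj).trans ?_)
  rw [Finset.sum_add_distrib, ← Finset.sum_mul, ← Finset.mul_sum, Finset.sum_const, nsmul_eq_mul,
    Nat.card_Icc, Nat.add_sub_cancel]
  have hZ : ∑ j ∈ Icc 1 J, 1 / ((j : ℝ) * Real.log 2) ^ (1 + ε) ≤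
      ∑' n : ℕ, 1 / ((n : ℝ) * Real.log 2) ^ (1 + ε) :=
    (tail_summable ε hε).sum_le_tsum _ (fun n _ => by positivity)
  have hmain : 32 * c * (∑ j ∈ Icc 1 J, 1 / ((j : ℝ) * Real.log 2) ^ (1 + ε)) * σ ≤
      η / 2 * σ := by
    refine mul_le_mul_of_nonneg_right ?_ hσ0
    exact (mul_le_mul_of_nonneg_left hZ (by positivity)).trans hc2
  have hsec : (J : ℝ) * (Cd * P * (K * (2 * P) * Real.sqrt N)) ≤ η / 2 * N := by
    have hsq : Real.sqrt N = (N : ℝ) ^ (1 / 2 : ℝ) := Real.sqrt_eq_rpow _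
    calc (J : ℝ) * (Cd * P * (K * (2 * P) * Real.sqrt N))
        ≤ (32 * κ * P) * (Cd * P * (K * (2 * P) * Real.sqrt N)) :=
          mul_le_mul_of_nonneg_right hJle (by positivity)
      _ = K' * (P * P * P * Real.sqrt N) := by
          rw [hK']
          ring
      _ = K' * (N : ℝ) ^ (11 / 16 : ℝ) := by
          rw [hsq, hP, ← Real.rpow_add hN0, ← Real.rpow_add hN0, ← Real.rpow_add hN0]
          norm_num
      _ ≤ (η / 2 * (N : ℝ) ^ (5 / 16 : ℝ)) * (N : ℝ) ^ (11 / 16 : ℝ) := by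
          refine mul_le_mul_of_nonneg_right ?_ (by positivity)
          rw [div_le_iff₀ (by positivity)] at hN1
          linarith
      _ = η / 2 * N := by
          rw [mul_assoc, ← Real.rpow_add hN0]
          norm_num
  have h5 : η / 2 * N ≤ η / 2 * σ := mul_le_mul_of_nonneg_left hσN (by positivity)
  linarith

end Pool.Agent.TH42.LD
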